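import Pool.Agent.N210.JN.Up

/-!
# The Sato-Tate law for products: no poles at `s = 1` for pairs suffices

`K` is a number field, `A_i` (`i ∈ ι`, a finite index set) are abelian varieties over `K`, `G_i = ST(A_i)`,
and `x_i(v) ∈ G_i` is an element of the class of the prime `v` of `K` (any element at the finitely many
primes of bad reduction; this changes the `L`-functions below by finitely many factors without zeros and
poles in `Re s > 0`).  Suppose that the Sato-Tate law is known for each `A_i`.  If `ST(∏ A_i) = ∏ ST(A_i)`,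
for instance for elliptic curves without complex multiplication that are pairwise not isogenous over the
algebraic closure, the Sato-Tate law for `∏ A_i` says that the tuples `(x_i(v))_i` are equidistributed in
`∏ G_i`.  The criterion of Serre for this asks for continuations *without zeros and poles* on the line
`Re s = 1` of the `L`-functions of all nontrivial tensor products `⨂ π_i` of irreducible representations
`π_i` of `G_i`.

The theorem below is about any compact groups `G_i`.  Suppose that these `L`-functions have *meromorphic*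
continuations to neighbourhoods of the points of `Re s = 1`, with whatever zeros and poles.

* If the groups have no nontrivial characters of degree one (for instance `SU(2)`, `USp(2g)`), the tuples
  are equidistributed in `∏ G_i` if and only if `L(π_i ⊗ π_j, s)` has no pole at the single point `s = 1`,
  for all `i ≠ j` and all nontrivial irreducible `π_i`, `π_j`; and if and only if all pairs
  `(x_i(v), x_j(v))` are equidistributed in `G_i × G_j`.
* For general groups one has to exclude in addition relations between characters of degree one.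
* Without any continuation: if `ι` has at least three elements, all subfamilies with one member less are
  jointly equidistributed, and one `π_i` has degree `≥ 2`, then
  `|log |L(⨂ π_i, 1 + iτ + ε)|| ≤ (1 - δ) log (1/ε)` for small `ε > 0`; in general the order of
  `L(⨂ π_i, s)` at `1 + iτ`, if there is a continuation, is `-1`, `0` or `1`, and it is not zero if and only
  if an explicit relation between the characters holds for almost all `v`.
-/

set_option autoImplicit false

namespace Pool.Agent.Results.MP_c481b3_nt.PairsSuffice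

open NumberField IsDedekindDomain Filter Topology MeasureTheory
open scoped ComplexConjugate

section Definitions

variable {K : Type} [Field K] [NumberField K]

/-- The average of `φ` over the primes of `K` of norm at most `N`. -/
noncomputable def avg (φ : HeightOneSpectrum (𝓞 K) → ℂ) (N : ℕ) : ℂ :=
  (∑ᶠ v : {v : HeightOneSpectrum (𝓞 K) // Ideal.absNorm v.asIdeal ≤ N}, φ v.1) /
    (Nat.card {v : HeightOneSpectrum (𝓞 K) // Ideal.absNorm v.asIdeal ≤ N} : ℂ)

/-- The classes of the `y v` are equidistributed for `μ`. -/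
def Equidistributed {G : Type} [Group G] [TopologicalSpace G] [MeasurableSpace G]
    (y : HeightOneSpectrum (𝓞 K) → G) (μ : Measure G) : Prop :=
  ∀ f : G → ℂ, Continuous f → (∀ g h, f (h * g * h⁻¹) = f g) →
    Tendsto (avg fun v => f (y v)) atTop (𝓝 (∫ g, f g ∂μ))

/-- The set `S` of primes has Dirichlet density zero. -/
def DensityZero (S : Set (HeightOneSpectrum (𝓞 K))) : Prop :=
  Tendsto (fun ε : ℝ => (∑' v : HeightOneSpectrum (𝓞 K),
    S.indicator (fun _ => (1 : ℝ)) v * (Ideal.absNorm v.asIdeal : ℝ) ^ (-(1 + ε))) /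
      Real.log (1 / ε)) (𝓝[>] 0) (𝓝 0)

/-- The functions `a` and `b` are almost equal: the set of `v` with `|a(v) - b(v)| > δ` has density zero
for all `δ > 0`. -/
def AlmostEqual (a b : HeightOneSpectrum (𝓞 K) → ℂ) : Prop :=
  ∀ δ : ℝ, 0 < δ → DensityZero {v | δ < ‖a v - b v‖}

/-- The character of `π`. -/
noncomputable def tr {G : Type} [Group G] {n : ℕ} (π : G →* Matrix.unitaryGroup (Fin n) ℂ)
    (g : G) : ℂ := (π g : Matrix (Fin n) (Fin n) ℂ).trace

/-- The unitary representation `π` is continuous and irreducible: it is not zero and only the scalars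
commute with all matrices `π g`. -/
structure IsIrreducible {G : Type} [Group G] [TopologicalSpace G] {n : ℕ}
    (π : G →* Matrix.unitaryGroup (Fin n) ℂ) : Prop where
  continuous : Continuous π
  schur : ∀ A : Matrix (Fin n) (Fin n) ℂ, (∀ g, (π g : Matrix (Fin n) (Fin n) ℂ) * A = A * π g) →
    ∃ c : ℂ, A = c • (1 : Matrix (Fin n) (Fin n) ℂ)
  ne_zero : n ≠ 0

/-- Every continuous unitary representation of degree one of `G` is trivial. -/
def NoCharacters (G : Type) [Group G] [TopologicalSpace G] : Prop :=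
  ∀ ψ : G →* Matrix.unitaryGroup (Fin 1) ℂ, Continuous ψ → ∀ g, ψ g = 1

variable {ι : Type} [Fintype ι] {G : ι → Type} [∀ i, Group (G i)]

/-- The tensor product of the matrices `A_i`. -/
noncomputable def tensor {n : ι → ℕ} (A : ∀ i, Matrix (Fin (n i)) (Fin (n i)) ℂ) :
    Matrix (∀ i, Fin (n i)) (∀ i, Fin (n i)) ℂ := Matrix.of fun a b => ∏ i, A i (a i) (b i)

/-- The Euler product `L(⨂ π_i, s) = ∏_v det(1 - q_v^{-s} ⨂_i π_i(x_i(v)))⁻¹`. -/
noncomputable def LFun [DecidableEq ι] {n : ι → ℕ}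
    (π : ∀ i, G i →* Matrix.unitaryGroup (Fin (n i)) ℂ)
    (x : ∀ i, HeightOneSpectrum (𝓞 K) → G i) (s : ℂ) : ℂ :=
  ∏' v : HeightOneSpectrum (𝓞 K), (Matrix.det (1 - ((Ideal.absNorm v.asIdeal : ℂ) ^ (-s)) •
    tensor fun i => (π i (x i v) : Matrix (Fin (n i)) (Fin (n i)) ℂ)))⁻¹

/-- `log |L(⨂ π_i, 1 + iτ + ε)| / log (1/ε)`. -/
noncomputable def size [DecidableEq ι] {n : ι → ℕ}
    (π : ∀ i, G i →* Matrix.unitaryGroup (Fin (n i)) ℂ)
    (x : ∀ i, HeightOneSpectrum (𝓞 K) → G i) (τ ε : ℝ) : ℝ :=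
  Real.log ‖LFun π x (1 + τ * Complex.I + ε)‖ / Real.log (1 / ε)

/-- The almost equality `χ_{π_j}(x_j(v)) ≈ c conj (∏_{i ≠ j} χ_{π_i}(x_i(v))) q_v^{iτ}`. -/
def Relation [DecidableEq ι] {n : ι → ℕ} (π : ∀ i, G i →* Matrix.unitaryGroup (Fin (n i)) ℂ)
    (x : ∀ i, HeightOneSpectrum (𝓞 K) → G i) (j : ι) (τ c : ℝ) : Prop :=
  AlmostEqual (fun v => tr (π j) (x j v)) fun v =>
    c * conj (∏ i ∈ Finset.univ.erase j, tr (π i) (x i v)) *
      (Ideal.absNorm v.asIdeal : ℂ) ^ (τ * Complex.I)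

variable [∀ i, TopologicalSpace (G i)]

/-- `Λ` is a meromorphic continuation of `L(⨂ π_i, s)` to a neighbourhood of `1 + iτ`. -/
def IsContinuation [DecidableEq ι] {n : ι → ℕ}
    (π : ∀ i, G i →* Matrix.unitaryGroup (Fin (n i)) ℂ)
    (x : ∀ i, HeightOneSpectrum (𝓞 K) → G i) (τ : ℝ) (Λ : ℂ → ℂ) : Prop :=
  MeromorphicAt Λ (1 + τ * Complex.I) ∧
    ∀ᶠ s in 𝓝 ((1 : ℂ) + τ * Complex.I), (1 : ℝ) < s.re → Λ s = LFun π x s

/-- For all irreducible representations `π_i` of the `G_i`, at least two of them not trivial, the function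
`L(⨂ π_i, s)` has a meromorphic continuation to a neighbourhood of every point `1 + iτ`. -/
def HasContinuations [DecidableEq ι] (x : ∀ i, HeightOneSpectrum (𝓞 K) → G i) : Prop :=
  ∀ (n : ι → ℕ) (π : ∀ i, G i →* Matrix.unitaryGroup (Fin (n i)) ℂ),
    (∀ i, IsIrreducible (π i)) → (∃ i j, i ≠ j ∧ (∃ g, π i g ≠ 1) ∧ ∃ g, π j g ≠ 1) →
    ∀ τ : ℝ, ∃ Λ : ℂ → ℂ, IsContinuation π x τ Λ

/-- For all `i ≠ j` and all nontrivial irreducible representations `π_i`, `π_j` of `G_i`, `G_j` (and trivial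
`π_k` for the other `k`), the function `L(π_i ⊗ π_j, s)` has no pole at `s = 1`. -/
def NoPoles [DecidableEq ι] (x : ∀ i, HeightOneSpectrum (𝓞 K) → G i) : Prop :=
  ∀ (n : ι → ℕ) (π : ∀ i, G i →* Matrix.unitaryGroup (Fin (n i)) ℂ),
    (∀ i, IsIrreducible (π i)) → ∀ i j, i ≠ j → (∃ g, π i g ≠ 1) → (∃ g, π j g ≠ 1) →
    (∀ k, k ≠ i → k ≠ j → ∀ g, π k g = 1) →
    ∀ Λ : ℂ → ℂ, IsContinuation π x 0 Λ → 0 ≤ meromorphicOrderAt Λ 1

/-- There is no almost equality `∏ ψ_i(x_i(v)) ≈ c q_v^{iτ}` with `c = ± 1` and continuous unitary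
representations `ψ_i` of degree one of the `G_i` that are not all trivial. -/
def NoCharacterRelation (x : ∀ i, HeightOneSpectrum (𝓞 K) → G i) : Prop :=
  ∀ ψ : ∀ i, G i →* Matrix.unitaryGroup (Fin 1) ℂ, (∀ i, Continuous (ψ i)) →
    (∃ i g, ψ i g ≠ 1) → ∀ τ c : ℝ, (c = 1 ∨ c = -1) →
    ¬ AlmostEqual (fun v => ∏ i, tr (ψ i) (x i v)) fun v =>
      c * (Ideal.absNorm v.asIdeal : ℂ) ^ (τ * Complex.I)

variable [∀ i, MeasurableSpace (G i)]

/-- The tuples `(x_i(v))_i` are equidistributed in `∏ G_i`. -/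
def Joint (x : ∀ i, HeightOneSpectrum (𝓞 K) → G i) (μ : ∀ i, Measure (G i)) : Prop :=
  Equidistributed (fun v i => x i v) (Measure.pi μ)

/-- The tuples `(x_i(v))_{i ≠ j}` without the member `j` are equidistributed in `∏_{i ≠ j} G_i`. -/
def JointWithout [DecidableEq ι] (x : ∀ i, HeightOneSpectrum (𝓞 K) → G i)
    (μ : ∀ i, Measure (G i)) (j : ι) : Prop :=
  Equidistributed (fun v (k : {i // i ≠ j}) => x k.1 v)
    (Measure.pi fun k : {i // i ≠ j} => μ k.1)

/-- For all `i ≠ j` the pairs `(x_i(v), x_j(v))` are equidistributed in `G_i × G_j`. -/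
def Pairwise (x : ∀ i, HeightOneSpectrum (𝓞 K) → G i) (μ : ∀ i, Measure (G i)) : Prop :=
  ∀ i j, i ≠ j → Equidistributed (fun v => (x i v, x j v)) ((μ i).prod (μ j))

end Definitions

section Bridge

set_option linter.unusedSectionVars false

open Pool.Agent.TH553.ST Pool.Agent.TH553.RS Pool.Agent.W540.BE Pool.Agent.N210.JN

variable {K : Type} [Field K] [NumberField K]

theorem avg_eq (g : HeightOneSpectrum (𝓞 K) → ℂ) : avg g = mn g := by
  funext N
  have hs : ∀ v, v ∈ upto K N ↔ Ideal.absNorm v.asIdeal ≤ N := fun v => mem_upto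
  let e : {v : HeightOneSpectrum (𝓞 K) // Ideal.absNorm v.asIdeal ≤ N} ≃ (upto K N) :=
    Equiv.subtypeEquivRight fun v => (hs v).symm
  have hfin : Finite {v : HeightOneSpectrum (𝓞 K) // Ideal.absNorm v.asIdeal ≤ N} :=
    Finite.of_equiv _ e.symm
  unfold avg mn
  have h1 : (∑ᶠ v : {v : HeightOneSpectrum (𝓞 K) // Ideal.absNorm v.asIdeal ≤ N}, g v.1) =
      ∑ v ∈ upto K N, g v := by
    rw [← Finset.sum_coe_sort, ← finsum_eq_sum_of_fintype, ← finsum_comp_equiv e]
    rfl
  have h2 : Nat.card {v : HeightOneSpectrum (𝓞 K) // Ideal.absNorm v.asIdeal ≤ N} =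
      (upto K N).card := by
    rw [Nat.card_congr e, Nat.card_eq_fintype_card, Fintype.card_coe]
  rw [h1, h2, Complex.real_smul, div_eq_inv_mul]
  push_cast
  rfl

theorem abs_of {c : ℝ} (h : c = 1 ∨ c = -1) : |c| = 1 := by
  rcases h with h | h <;> simp [h]

theorem of_abs {c : ℝ} (h : |c| = 1) : c = 1 ∨ c = -1 := by
  rcases abs_choice c with h' | h'
  · left
    linarith
  · right
    linarith

theorem almost_iff (a b : HeightOneSpectrum (𝓞 K) → ℂ) :
    AlmostEqual a b ↔ Null fun v => a v - b v := Iff.rfl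

theorem null_congr {D D' : HeightOneSpectrum (𝓞 K) → ℂ} (h : ∀ v, ‖D v‖ = ‖D' v‖) :
    Null D ↔ Null D' := by
  unfold Null
  simp only [h]

theorem law_of {G : Type} [Group G] [TopologicalSpace G] [IsTopologicalGroup G] [CompactSpace G]
    [MeasurableSpace G] [BorelSpace G] {μ : Measure G} [IsProbabilityMeasure μ] [μ.IsHaarMeasure]
    {x : HeightOneSpectrum (𝓞 K) → G} (h : Equidistributed x μ) : Law x μ := by
  intro f hf hcl
  have h1 := h (fun g => (f g : ℂ)) (Complex.continuous_ofReal.comp hf) fun g h => by rw [hcl]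
  have h0 : ∫ g, (f g : ℂ) ∂μ = ((∫ g, f g ∂μ : ℝ) : ℂ) := integral_ofReal
  rw [avg_eq, h0] at h1
  have h2 := (Complex.continuous_re.tendsto _).comp h1
  refine h2.congr fun N => ?_
  simp only [Function.comp]
  rw [re_mn]
  rfl

variable {ι : Type} [Fintype ι] [DecidableEq ι] {G : ι → Type} [∀ i, Group (G i)]
  [∀ i, TopologicalSpace (G i)] [∀ i, IsTopologicalGroup (G i)] [∀ i, CompactSpace (G i)]
  [∀ i, T2Space (G i)] [∀ i, SecondCountableTopology (G i)] [∀ i, MeasurableSpace (G i)]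
  [∀ i, BorelSpace (G i)] {μ : ∀ i, Measure (G i)} [∀ i, IsProbabilityMeasure (μ i)]
  [∀ i, (μ i).IsHaarMeasure] {x : ∀ i, HeightOneSpectrum (𝓞 K) → G i}

theorem joint_iff : Joint x μ ↔ Pool.Agent.N210.JN.JL μ x := by
  unfold Joint Equidistributed Pool.Agent.N210.JN.JL
  simp only [avg_eq]

theorem pairwise_iff : Pairwise x μ ↔ ∀ i j, i ≠ j → PL μ x i j := by
  unfold Pairwise Equidistributed PL
  simp only [avg_eq]

theorem mero_of (h : HasContinuations x) : Mero x := by
  intro n ρ hn hρ h2 τ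
  exact h n ρ (fun i => ⟨(hρ i).1, (hρ i).2, hn i⟩) h2 τ

theorem relation_iff {n : ι → ℕ} (π : ∀ i, G i →* Matrix.unitaryGroup (Fin (n i)) ℂ) (j : ι)
    (τ c : ℝ) : Relation π x j τ c ↔ Null (df c (Af π x j) (Bf π x j τ)) := by
  unfold Relation
  rw [almost_iff]
  have e : (fun v => tr (π j) (x j v) - c * conj (∏ i ∈ Finset.univ.erase j, tr (π i) (x i v)) *
      (Ideal.absNorm v.asIdeal : ℂ) ^ (τ * Complex.I)) = df c (Af π x j) (Bf π x j τ) := by
    funext v
    unfold df Af Bf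
    rw [map_mul, conj_q, mul_assoc]
    rfl
  rw [e]

theorem noPoles_iff : NoPoles x ↔ NoPole x := by
  have e : ((1 : ℂ) + ((0 : ℝ) : ℂ) * Complex.I) = 1 := by simp
  constructor
  · intro h n ρ hn hρ i j hij hi hj hk Λ h1 h2
    rw [e]
    exact h n ρ (fun i => ⟨(hρ i).1, (hρ i).2, hn i⟩) i j hij hi hj hk Λ ⟨h1, h2⟩
  · intro h n π hπ i j hij hi hj hk Λ hΛ
    have h1 := h n π (fun i => (hπ i).ne_zero) (fun i => ⟨(hπ i).continuous, (hπ i).schur⟩) i j
      hij hi hj hk Λ hΛ.1 hΛ.2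
    rw [e] at h1
    exact h1

theorem noChar_iff : NoCharacterRelation x ↔ NoAb x := by
  have key : ∀ (ψ : ∀ i, G i →* Matrix.unitaryGroup (Fin 1) ℂ) (τ c : ℝ),
      AlmostEqual (fun v => ∏ i, tr (ψ i) (x i v)) (fun v =>
        c * (Ideal.absNorm v.asIdeal : ℂ) ^ (τ * Complex.I)) ↔
      Null fun v => pc ψ x v * ((nm K v : ℕ) : ℂ) ^ (-(τ * Complex.I : ℂ)) - c := by
    intro ψ τ c
    rw [almost_iff]
    refine null_congr fun v => ?_
    have hq : ((nm K v : ℕ) : ℂ) ≠ 0 := by
      have := nm_pos v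
      exact_mod_cast this.ne'
    have e : pc ψ x v * ((nm K v : ℕ) : ℂ) ^ (-(τ * Complex.I : ℂ)) - c =
        ((∏ i, tr (ψ i) (x i v)) - c * ((nm K v : ℕ) : ℂ) ^ (τ * Complex.I : ℂ)) *
          ((nm K v : ℕ) : ℂ) ^ (-(τ * Complex.I : ℂ)) := by
      rw [sub_mul, mul_assoc (c : ℂ), ← Complex.cpow_add _ _ hq, add_neg_cancel, Complex.cpow_zero,
        mul_one]
      rfl
    rw [e, norm_mul, norm_q, mul_one]
    rfl
  constructor
  · intro h ψ hψ h1 τ r hr hnull
    exact h ψ hψ h1 τ r (of_abs hr) ((key ψ τ r).2 hnull)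
  · intro h ψ hψ h1 τ c hc hA
    exact h ψ hψ h1 τ c (abs_of hc) ((key ψ τ c).1 hA)

theorem PC_sub (h : ∀ j, JointWithout x μ j) (j : ι) : PC μ x (Finset.univ.erase j) := by
  refine PC_of_sub fun F hF hcl => ?_
  have h1 := h j F hF hcl
  rw [avg_eq] at h1
  exact h1

end Bridge

/-- **Pairs suffice.**  Let `K` be a number field, `G_i` (`i ∈ ι`, finite) compact groups with a countable
basis and Haar probability measures `μ_i`, and `x_i(v) ∈ G_i` for the primes `v` of `K`, such that for each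
`i` the classes of the `x_i(v)` are equidistributed in `G_i`.

I.  Suppose that all `L(⨂ π_i, s)` have local meromorphic continuations.  If the `G_i` have no nontrivial
characters of degree one, the tuples `(x_i(v))_i` are equidistributed in `∏ G_i` if and only if all pairs
are equidistributed in `G_i × G_j`, and if and only if the `L(π_i ⊗ π_j, s)` with `i ≠ j` and `π_i`, `π_j`
nontrivial have no pole at `s = 1`.  For general `G_i` both statements are true with the additional condition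
that there is no relation between characters of degree one.

II (no continuation assumed).  Suppose that for each `j` the family `(x_i)_{i ≠ j}` is jointly
equidistributed.  Let `π_i` be irreducible representations of the `G_i` and `L(s) = L(⨂ π_i, s)`.  Then
`|log |L(1 + iτ + ε)|| ≤ (1 + η) log (1/ε)` for all `η > 0` and small `ε > 0`.  If `ι` has at least three
elements and one `π_i` has degree `≥ 2`, then there is `δ > 0` with
`|log |L(1 + iτ + ε)|| ≤ (1 - δ) log (1/ε)` for small `ε > 0`.  The order `m` of a local meromorphic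
continuation at `1 + iτ` is `-1`, `0` or `1`, and for `c = ± 1` and any `j` we have `m = -c` if and only if
`χ_{π_j}(x_j(v))` is almost equal to `c conj (∏_{i ≠ j} χ_{π_i}(x_i(v))) q_v^{iτ}`. -/
theorem result (K : Type) [Field K] [NumberField K] (ι : Type) [Fintype ι] [DecidableEq ι]
    (G : ι → Type) [∀ i, Group (G i)] [∀ i, TopologicalSpace (G i)]
    [∀ i, IsTopologicalGroup (G i)] [∀ i, CompactSpace (G i)] [∀ i, T2Space (G i)]
    [∀ i, SecondCountableTopology (G i)] [∀ i, MeasurableSpace (G i)] [∀ i, BorelSpace (G i)]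
    (μ : ∀ i, Measure (G i)) [∀ i, IsProbabilityMeasure (μ i)] [∀ i, (μ i).IsHaarMeasure]
    (x : ∀ i, HeightOneSpectrum (𝓞 K) → G i) (hx : ∀ i, Equidistributed (x i) (μ i)) :
    (HasContinuations x →
      ((∀ i, NoCharacters (G i)) → (Joint x μ ↔ Pairwise x μ) ∧ (Joint x μ ↔ NoPoles x)) ∧
      (Joint x μ ↔ Pairwise x μ ∧ NoCharacterRelation x) ∧
      (Joint x μ ↔ NoPoles x ∧ NoCharacterRelation x)) ∧
    (Nonempty ι → (∀ j, JointWithout x μ j) →
      ∀ (n : ι → ℕ) (π : ∀ i, G i →* Matrix.unitaryGroup (Fin (n i)) ℂ),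
        (∀ i, IsIrreducible (π i)) → ∀ τ : ℝ,
        (∀ η : ℝ, 0 < η → ∀ᶠ ε in 𝓝[>] (0 : ℝ), |size π x τ ε| ≤ 1 + η) ∧
        (3 ≤ Fintype.card ι → (∃ i, 2 ≤ n i) →
          ∃ δ : ℝ, 0 < δ ∧ ∀ᶠ ε in 𝓝[>] (0 : ℝ), |size π x τ ε| ≤ 1 - δ) ∧
        ∀ Λ : ℂ → ℂ, IsContinuation π x τ Λ →
          ∃ m : ℤ, meromorphicOrderAt Λ (1 + τ * Complex.I) = m ∧ |m| ≤ 1 ∧
            ∀ j, ∀ c : ℝ, (c = 1 ∨ c = -1) → ((m : ℝ) = -c ↔ Relation π x j τ c)) := by
  have hL : ∀ i, Pool.Agent.TH553.ST.Law (x i) (μ i) := fun i => law_of (hx i)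
  have a0 : Joint x μ → Pool.Agent.N210.JN.PC μ x Finset.univ := fun h =>
    Pool.Agent.N210.JN.PC_of_joint (joint_iff.1 h)
  have a1 : Joint x μ → Pairwise x μ := fun h =>
    pairwise_iff.2 fun i j hij => Pool.Agent.N210.JN.pair_of_PC (a0 h) hij
  have a2 : Joint x μ → NoCharacterRelation x := fun h =>
    noChar_iff.2 (Pool.Agent.N210.JN.noAb_of (a0 h))
  have a3 : Pairwise x μ → Pool.Agent.N210.JN.NoPair x := fun h =>
    Pool.Agent.N210.JN.noPair_of hL (pairwise_iff.1 h)
  have a4 : HasContinuations x → Pool.Agent.N210.JN.NoPair x → Pool.Agent.N210.JN.NoAb x →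
      Joint x μ := fun h h1 h2 => joint_iff.2 (Pool.Agent.N210.JN.joint_of_PC
    (Pool.Agent.N210.JN.all_PC hL (mero_of h) h1 h2 Finset.univ))
  have a5 : HasContinuations x → NoPoles x → Pool.Agent.N210.JN.NoPair x := fun h h1 =>
    Pool.Agent.N210.JN.noPair_of_noPole hL (mero_of h) (noPoles_iff.1 h1)
  have a6 : Joint x μ → NoPoles x := fun h =>
    noPoles_iff.2 (Pool.Agent.N210.JN.noPole_of (a0 h))
  refine ⟨fun hM => ⟨fun hG => ⟨⟨a1, fun h => a4 hM (a3 h) (Pool.Agent.N210.JN.noAb_of_perf hG)⟩,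
    a6, fun h => a4 hM (a5 hM h) (Pool.Agent.N210.JN.noAb_of_perf hG)⟩, ⟨fun h => ⟨a1 h, a2 h⟩,
    fun h => a4 hM (a3 h.1) (noChar_iff.1 h.2)⟩, fun h => ⟨a6 h, a2 h⟩, fun h => a4 hM
    (a5 hM h.1) (noChar_iff.1 h.2)⟩, fun hne hsub n π hπ τ => ⟨fun η hη => ?_,
    fun h3 ⟨k, hk⟩ => ?_, fun Λ hΛ => ?_⟩⟩
  · exact Pool.Agent.N210.JN.size_le (fun i => ⟨(hπ i).continuous, (hπ i).schur⟩)
      (fun i => (hπ i).ne_zero) hL hne (PC_sub hsub) τ hη
  · exact Pool.Agent.N210.JN.size_lt (fun i => ⟨(hπ i).continuous, (hπ i).schur⟩)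
      (fun i => (hπ i).ne_zero) hL h3 (PC_sub hsub) (k := k) (by omega) τ
  · obtain ⟨m, h1, h2⟩ := Pool.Agent.N210.JN.order_LT (ρ := π) (x := x) hΛ.1 hΛ.2
    obtain ⟨h3, h4⟩ := Pool.Agent.N210.JN.order_iff (fun i => ⟨(hπ i).continuous, (hπ i).schur⟩)
      (fun i => (hπ i).ne_zero) hL hne (PC_sub hsub) h2
    refine ⟨m, h1, h3, fun j c hc => ?_⟩
    rw [relation_iff, ← h4 j c (abs_of hc)]
    exact ⟨fun h => by rw [h, neg_neg], fun h => by rw [← h, neg_neg]⟩

end Pool.Agent.Results.MP_c481b3_nt.PairsSuffice
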