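import Pool.Agent.N915.SG.Weyl2

/-!
# The Sato-Tate law is determined by signs

`A/K` is an abelian variety of dimension `g` over a number field `K`, and `𝔭_0, 𝔭_1, …` are the primes of
good reduction, ordered by the norm.  The normalised eigenvalues of Frobenius at `𝔭_n` are
`e^{± i θ_{n,1}}, …, e^{± i θ_{n,g}}` with `θ_{n,j} ∈ [0, π]`; continuous functions on
`conj(USp(2g))` are the continuous symmetric functions of `(θ_1, …, θ_g)`.  More generally the angles are
indexed by a finite set `I` with a group `P` of permutations: `P` is the full symmetric group for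
`USp(2g)`, `∏ S_{g_j}` for `∏ USp(2 g_j)`, and trivial for `SU(2)^I` (that is `I` elliptic curves).

For `k ∈ ℕ^I` let `W_k` be the sum over `σ ∈ P` of the products of the signs (`0` or `± 1`) of the real
parts of the `k_i`-th powers of `e^{i θ_{σ(i)}}`.  For elliptic curves these are products of the signs of
the traces of Frobenius over the extensions of degree `k_i` of the residue field, that is of
`N𝔭^{k_i} + 1 - #E_i(𝔽_{𝔭^{k_i}})`.

* Every continuous `P`-invariant function on `[0, π]^I` is a *uniform* limit of finite linear combinations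
  of the step functions `W_k` (`dense_Ws`).
* If the mean value of `W_k` exists for all `k`, then the mean value of every continuous `P`-invariant
  function exists: the angles have a limiting law.
* If the mean values of all `W_k` are those of a law `μ`, then the angles are equidistributed for `μ`; and
  conversely if `μ` has no mass on the zeros of the `cos (m θ_i)`.
* For `SU(2)^I` (pairwise not isogenous elliptic curves without complex multiplication over any number
  field) the Sato-Tate law holds if and only if the mean value of `∏_i sgn t_i(k_i)` is `∏_i e(k_i)`, where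
  `e(0) = 1`, `e(2) = -2/π` and `e(k) = 0` for all other `k`. In particular for one curve: for every
  `m ≠ 2` there have to be as many primes with `#E(𝔽_{𝔭^m}) > N𝔭^m + 1` as with `<`, and for `m = 2` the
  difference of the proportions has to be `2/π`.
* For `USp(2g)` the Sato-Tate law holds if and only if the mean values of `W_k` are those of the Haar
  measure, and these are `0` as soon as some `k_j > 2g`.

Outline.  The character `χ₄` is completely multiplicative and
`sgn cos θ = (4/π) ∑ χ₄(m) cos(m θ) / m`, so that formally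
`cos θ = (π/4) ∑ μ(m) χ₄(m) sgn cos(m θ) / m`.  This series converges uniformly (`Core.lean`): the partial
sums with the characters of one modulus are controlled by an estimate of the type of Davenport for
`∑ μ(m) e(m α) ({m y + β} - 1/2)`, uniformly in `α, β, y` (`Pool/Agent/N915/ML`).
-/

set_option autoImplicit false

namespace Pool.Agent.Results.MP_c481b3_nt.SignsOfTraces

open Filter Topology MeasureTheory

/-- All angles lie in `[0, π]`. -/
def InBox {I : Type} (θ : I → ℝ) : Prop := ∀ i, θ i ∈ Set.Icc (0 : ℝ) Real.pi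

/-- `f` is invariant under the permutations in `P`. -/
def Invariant {I : Type} (P : Subgroup (Equiv.Perm I)) (f : (I → ℝ) → ℝ) : Prop :=
  ∀ σ ∈ P, ∀ θ : I → ℝ, f (fun i => θ (σ i)) = f θ

/-- `W_k(θ)`: the sum over `σ ∈ P` of the products of the signs of `cos (k_i θ_{σ(i)})`. -/
noncomputable def signSum {I : Type} [Fintype I] (P : Subgroup (Equiv.Perm I)) (k : I → ℕ)
    (θ : I → ℝ) : ℝ :=
  ∑ᶠ σ : P, ∏ i, Real.sign (Real.cos (k i * θ ((σ : Equiv.Perm I) i)))

/-- The mean value of `f` over the first `N` members of the sequence. -/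
noncomputable def mean {I : Type} (θ : ℕ → I → ℝ) (f : (I → ℝ) → ℝ) (N : ℕ) : ℝ :=
  (∑ n ∈ Finset.range N, f (θ n)) / N

/-- The law of the angles for the Haar measure of `SU(2)^I`: density `∏ (2/π) sin² θ_i` on
`[0, π]^I`. -/
noncomputable def lawSU (I : Type) [Fintype I] : Measure (I → ℝ) :=
  Measure.pi fun _ : I => (volume.restrict (Set.Icc (0 : ℝ) Real.pi)).withDensity
    fun t => ENNReal.ofReal (2 / Real.pi * Real.sin t ^ 2)

/-- `∏ sin² θ_i ∏_{i < j} (cos θ_i - cos θ_j)²`. -/
noncomputable def weylDensity (g : ℕ) (θ : Fin g → ℝ) : ℝ :=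
  (∏ i, Real.sin (θ i) ^ 2) * ∏ i, ∏ j ∈ Finset.Ioi i, (Real.cos (θ i) - Real.cos (θ j)) ^ 2

/-- The measure on `[0, π]^g` with the density `weylDensity`. -/
noncomputable def weylMeasure (g : ℕ) : Measure (Fin g → ℝ) :=
  (Measure.pi fun _ : Fin g => volume.restrict (Set.Icc (0 : ℝ) Real.pi)).withDensity
    fun θ => ENNReal.ofReal (weylDensity g θ)

/-- The law of the angles for the Haar measure of `USp(2g)`: `weylMeasure g`, normalised. -/
noncomputable def lawUSp (g : ℕ) : Measure (Fin g → ℝ) :=
  (weylMeasure g Set.univ)⁻¹ • weylMeasure g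

/-- The traces `α^k + β^k`, `α + β = a`, `α β = q`: if `a` is the trace of Frobenius of an elliptic curve
over the field with `q` elements, these are the traces over the extensions of degree `k`. -/
noncomputable def trace (q a : ℝ) : ℕ → ℝ
  | 0 => 2
  | 1 => a
  | (k + 2) => a * trace q a (k + 1) - q * trace q a k

/-- `e(0) = 1`, `e(2) = -2/π`, `e(k) = 0` for all other `k`. -/
noncomputable def e (k : ℕ) : ℝ := if k = 0 then 1 else if k = 2 then -(2 / Real.pi) else 0

lemma trace_eq (q a : ℝ) (k : ℕ) : trace q a k = Pool.Agent.N915.SG.tk q a k := by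
  induction k using Nat.strong_induction_on with
  | _ k ih =>
    rcases k with _ | _ | k
    · rfl
    · rfl
    · rw [trace, Pool.Agent.N915.SG.tk, ih (k + 1) (by omega), ih k (by omega)]

theorem result :
    -- uniform approximation, existence of a law, and the two directions of the criterion
    (∀ (I : Type) [Fintype I] (P : Subgroup (Equiv.Perm I)),
      (∀ f : (I → ℝ) → ℝ, Continuous f → Invariant P f → ∀ ε : ℝ, 0 < ε →
        ∃ c : (I → ℕ) →₀ ℝ, ∀ θ : I → ℝ, InBox θ →
          |f θ - c.sum fun k a => a * signSum P k θ| ≤ ε) ∧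
      ∀ θ : ℕ → I → ℝ, (∀ n, InBox (θ n)) →
        ((∀ k : I → ℕ, ∃ B, Tendsto (mean θ (signSum P k)) atTop (𝓝 B)) →
          ∀ f : (I → ℝ) → ℝ, Continuous f → Invariant P f → ∃ L, Tendsto (mean θ f) atTop (𝓝 L)) ∧
        ∀ μ : Measure (I → ℝ), IsProbabilityMeasure μ → (∀ᵐ t ∂μ, InBox t) →
          ((∀ k : I → ℕ, Tendsto (mean θ (signSum P k)) atTop (𝓝 (∫ t, signSum P k t ∂μ))) →
            ∀ f : (I → ℝ) → ℝ, Continuous f → Invariant P f →
              Tendsto (mean θ f) atTop (𝓝 (∫ t, f t ∂μ))) ∧
          ((∀ i, ∀ m : ℕ, μ {t : I → ℝ | Real.cos (m * t i) = 0} = 0) →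
            (∀ f : (I → ℝ) → ℝ, Continuous f → Invariant P f →
              Tendsto (mean θ f) atTop (𝓝 (∫ t, f t ∂μ))) →
            ∀ k : I → ℕ, Tendsto (mean θ (signSum P k)) atTop (𝓝 (∫ t, signSum P k t ∂μ)))) ∧
    -- several elliptic curves: the signs of the traces over all extensions
    (∀ (I : Type) [Fintype I] (q : ℕ → ℝ) (a : ℕ → I → ℝ), (∀ n, 0 < q n) →
      (∀ n i, |a n i| ≤ 2 * √(q n)) →
      ((∀ f : (I → ℝ) → ℝ, Continuous f →
          Tendsto (mean (fun n i => Real.arccos (a n i / (2 * √(q n)))) f) atTop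
            (𝓝 (∫ t, f t ∂(lawSU I)))) ↔
        ∀ k : I → ℕ, Tendsto (fun N : ℕ => (∑ n ∈ Finset.range N,
          ∏ i, Real.sign (trace (q n) (a n i) (k i))) / N) atTop (𝓝 (∏ i, e (k i))))) ∧
    -- generic abelian varieties of dimension `g`
    (∀ (g : ℕ) (θ : ℕ → Fin g → ℝ), (∀ n, InBox (θ n)) →
      ((∀ f : (Fin g → ℝ) → ℝ, Continuous f → Invariant ⊤ f →
          Tendsto (mean θ f) atTop (𝓝 (∫ t, f t ∂(lawUSp g)))) ↔
        ∀ k : Fin g → ℕ, Tendsto (mean θ (signSum ⊤ k)) atTop
          (𝓝 (∫ t, signSum ⊤ k t ∂(lawUSp g)))) ∧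
      ∀ k : Fin g → ℕ, (∃ j, 2 * g < k j) → ∫ t, signSum ⊤ k t ∂(lawUSp g) = 0) := by
  refine ⟨?_, ?_, ?_⟩
  · intro I _ P
    classical
    refine ⟨fun f hf hP ε hε => ?_, fun θ hθ => ⟨fun h f hf hP => ?_, fun μ hμ1 hμ => ⟨?_, ?_⟩⟩⟩
    · obtain ⟨F, h1, h2⟩ := Pool.Agent.N915.SG.dense_Ws P f hf hP ε hε
      obtain ⟨c, hc⟩ := (Finsupp.mem_span_range_iff_exists_finsupp).1 h1
      refine ⟨c, fun θ hθ => ?_⟩
      have h3 := h2 θ hθ
      have h4 : F θ = c.sum fun k a => a * signSum P k θ := by
        rw [← hc, Finsupp.sum, Finsupp.sum, Finset.sum_apply]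
        rfl
      rw [← h4]
      exact h3
    · exact Pool.Agent.N915.SG.exists_lim P θ hθ h f hf hP
    · intro h f hf hP
      exact Pool.Agent.N915.SG.law_of_signs μ P hμ θ hθ h f hf hP
    · intro h0 h k
      exact Pool.Agent.N915.SG.signs_of_law μ P hμ θ h0 h k
  · intro I _ q a hq ha
    classical
    have h := Pool.Agent.N915.SG.SU_criterion (I := I)
      (fun n i => Real.arccos (a n i / (2 * √(q n))))
      (fun n i => ⟨Real.arccos_nonneg _, Real.arccos_le_pi _⟩)
    have e1 : ∀ k : I → ℕ, (fun N : ℕ => (∑ n ∈ Finset.range N,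
        ∏ i, Real.sign (trace (q n) (a n i) (k i))) / (N : ℝ)) =
        Pool.Agent.N915.SG.av (fun n i => Real.arccos (a n i / (2 * √(q n))))
          (Pool.Agent.N915.SG.Sg k) := by
      intro k
      funext N
      unfold Pool.Agent.N915.SG.av Pool.Agent.N915.SG.Sg
      congr 1
      refine Finset.sum_congr rfl fun n _ => Finset.prod_congr rfl fun i _ => ?_
      rw [trace_eq, Pool.Agent.N915.SG.sign_tk _ _ (hq n) (ha n i)]
      rfl
    constructor
    · intro h1 k
      rw [e1]
      exact h.1 h1 k
    · intro h1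
      refine h.2 fun k => ?_
      have := h1 k
      rw [e1] at this
      exact this
  · intro g θ hθ
    refine ⟨⟨fun h k => ?_, fun h f hf hP => ?_⟩, fun k hk => ?_⟩
    · exact Pool.Agent.N915.SG.signs_of_law (Pool.Agent.N915.SG.weyl g) ⊤
        Pool.Agent.N915.SG.weyl_box θ (fun i m => Pool.Agent.N915.SG.weyl_null i m) h k
    · exact Pool.Agent.N915.SG.law_of_signs (Pool.Agent.N915.SG.weyl g) ⊤
        Pool.Agent.N915.SG.weyl_box θ hθ h f hf hP
    · exact Pool.Agent.N915.SG.weyl_zero ⊤ k hk

end Pool.Agent.Results.MP_c481b3_nt.SignsOfTraces
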