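import Pool.Agent.N859.SP.Main

/-!
# Sign patterns of the traces of Frobenius of three elliptic curves

Let `E_1, E_2, E_3` be elliptic curves over a number field `K` without complex multiplication, pairwise not isogenous
over any extension of `K` (also not up to twists). The Sato-Tate conjecture for the abelian threefold
`E_1 × E_2 × E_3` says that the normalised traces are independent; it is not known. In particular each of the eight
sign patterns of `(a_v(E_1), a_v(E_2), a_v(E_3))` should have density `1/8`. We show: each of the eight patterns has
lower Dirichlet density at least `1/32` and upper Dirichlet density at most `7/32`.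

The structure `Triple` lists what is used, all of it is known (for example) over `ℚ`: the `L`-functions
`L(Sym^a E_i × Sym^b E_j, s)` and `L(E_i × E_j × Sym^c E_l, s)` are analytic and not zero at `s = 1` (Newton-Thorne:
all symmetric powers are cuspidal; Ramakrishnan: `E_i × E_j` is cuspidal on `GL_4`; Jacquet, Piatetski-Shapiro,
Shalika: Rankin-Selberg `L`-functions). Nothing is assumed on `L(Sym^a E_1 × Sym^b E_2 × Sym^c E_3, s)` if two of
`a, b, c` are larger than `1`.

Proof: the pairs are equidistributed, so the mean value of the product `σ` of the three signs is to be estimated. With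
`K = (rs + st + tr)/2 - rst/√2`, `r, s, t` the absolute values of the three normalised traces, `σ K` has mean value
zero, and `|1 - K| ≤ ((r² - 2)² + (s² - 2)² + (t² - 2)²) / 8`, whose mean is `3/4`. Hence `|mean σ| ≤ 3/4`.
-/

set_option autoImplicit false

namespace Pool.Agent.Results.MP_c481b3_nt.ThreeCurvesSignPatterns

open NumberField IsDedekindDomain Pool.Agent.N859.SP
open Pool.Agent.N859.G4 (PL upperDensity lowerDensity)

/-- **Sign patterns of three elliptic curves.** -/
theorem result {K : Type*} [Field K] [NumberField K] {S : Finset (HeightOneSpectrum (𝓞 K))}
    {α : Fin 3 → PL S → ℂ} (h : Triple α) (e : Fin 3 → ℝ) (he : ∀ i, e i = 1 ∨ e i = -1) :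
    1 / 32 ≤ lowerDensity (fun v => ∀ i, 0 < e i * (α i v).re) ∧
      upperDensity (fun v => ∀ i, 0 < e i * (α i v).re) ≤ 7 / 32 :=
  main h e he

end Pool.Agent.Results.MP_c481b3_nt.ThreeCurvesSignPatterns
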